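import Pool.Agent.helper87.X4.Spec

set_option autoImplicit false

namespace Pool.Agent.X4

open Matrix Pool.Agent.PL

theorem GB (hDL : DL_stmt) : GB_stmt := by
  intro F _ _ N E D
  refine ⟨?_, ?_, ?_, ?_⟩
  · intro m t _
    funext I
    unfold der
    simp
  · intro X hX Y hY m t ht
    rw [(hDL N m ℚ X Y t t 0).1, hX m t ht, hY m t ht, add_zero]
  · intro c X hX m t ht
    rw [(hDL N m ℚ X X t t c).2.1, hX m t ht, smul_zero]
  · intro X hX Y hY m t ht
    have h0 : ∀ Z : Matrix (Fin N) (Fin N) ℚ, der Z m (0 : Tn N m ℚ) = 0 := by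
      intro Z
      funext I
      unfold der
      simp
    rw [(hDL N m ℚ X Y t t 0).2.2.2.2, hX m t ht, hY m t ht, h0, h0, sub_zero]

end Pool.Agent.X4
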